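import Pool.Agent.R592.Ba.Defs

/-!
# Piece BAF-4: the back-and-forth construction
-/

set_option autoImplicit false

open Set Pool.Agent.R592.Ba

namespace Pool.Agent.HP981.Ba

theorem tree {N : Type} (U V : N → Set X) (S : ℕ → N → Set N) (root : N)
    (hsub : ∀ n ν, ∀ c ∈ S n ν, U c ⊆ U ν ∧ V c ⊆ V ν)
    (hcU : ∀ n ν, ∀ x ∈ U ν, ∃ c ∈ S n ν, x ∈ U c) (hcV : ∀ n ν, ∀ x ∈ V ν, ∃ c ∈ S n ν, x ∈ V c)
    (huU : ∀ n ν, ∀ c ∈ S n ν, ∀ c' ∈ S n ν, ∀ x, x ∈ U c → x ∈ U c' → c = c')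
    (huV : ∀ n ν, ∀ c ∈ S n ν, ∀ c' ∈ S n ν, ∀ x, x ∈ V c → x ∈ V c' → c = c')
    (haU : ∀ n ν, ∀ c ∈ S n ν, ∀ x ∈ U c, ∀ y ∈ U c, Agree n x y)
    (haV : ∀ n ν, ∀ c ∈ S n ν, ∀ x ∈ V c, ∀ y ∈ V c, Agree n x y)
    (hUo : ∀ ν, IsClopen (U ν)) (hVo : ∀ ν, IsClopen (V ν)) (hUn : ∀ ν, (U ν).Nonempty)
    (hVn : ∀ ν, (V ν).Nonempty) (hrU : U root = univ) (hrV : V root = univ) :
    ∃ (h : X ≃ₜ X) (nx : X → ℕ → N), (∀ x, nx x 0 = root) ∧ (∀ x n, nx x (n + 1) ∈ S n (nx x n)) ∧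
      (∀ x n, x ∈ U (nx x n)) ∧ ∀ x n, h x ∈ V (nx x n) := by
  classical
  have : Nonempty N := ⟨root⟩
  choose! cU hcU1 hcU2 using hcU
  choose! cV hcV1 hcV2 using hcV
  let nx : X → ℕ → N := fun x n => Nat.rec root (fun n ν => cU n ν x) n
  let ny : X → ℕ → N := fun x n => Nat.rec root (fun n ν => cV n ν x) n
  have nx0 : ∀ x, nx x 0 = root := fun _ => rfl
  have ny0 : ∀ x, ny x 0 = root := fun _ => rfl
  have nxs : ∀ x n, nx x (n + 1) = cU n (nx x n) x := fun _ _ => rfl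
  have nys : ∀ x n, ny x (n + 1) = cV n (ny x n) x := fun _ _ => rfl
  clear_value nx ny
  have nxU : ∀ x n, x ∈ U (nx x n) := by
    intro x n
    induction n with
    | zero => rw [nx0, hrU]; trivial
    | succ n ih => rw [nxs]; exact hcU2 n _ x ih
  have nyV : ∀ x n, x ∈ V (ny x n) := by
    intro x n
    induction n with
    | zero => rw [ny0, hrV]; trivial
    | succ n ih => rw [nys]; exact hcV2 n _ x ih
  have nxS : ∀ x n, nx x (n + 1) ∈ S n (nx x n) := fun x n => by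
    rw [nxs]; exact hcU1 n _ x (nxU x n)
  have nyS : ∀ x n, ny x (n + 1) ∈ S n (ny x n) := fun x n => by
    rw [nys]; exact hcV1 n _ x (nyV x n)
  have hH : ∀ x, ∃ y, ∀ n, y ∈ V (nx x n) := by
    intro x
    obtain ⟨y, hy⟩ := IsCompact.nonempty_iInter_of_sequence_nonempty_isCompact_isClosed
      (fun n => V (nx x n)) (fun n => (hsub n _ _ (nxS x n)).2) (fun n => hVn _)
      (hVo _).1.isCompact (fun n => (hVo _).1)
    exact ⟨y, fun n => mem_iInter.1 hy n⟩
  have hK : ∀ y, ∃ x, ∀ n, x ∈ U (ny y n) := by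
    intro x
    obtain ⟨y, hy⟩ := IsCompact.nonempty_iInter_of_sequence_nonempty_isCompact_isClosed
      (fun n => U (ny x n)) (fun n => (hsub n _ _ (nyS x n)).1) (fun n => hUn _)
      (hUo _).1.isCompact (fun n => (hUo _).1)
    exact ⟨y, fun n => mem_iInter.1 hy n⟩
  choose H hH using hH
  choose K hK using hK
  have eqx : ∀ x n, ny (H x) n = nx x n := by
    intro x n
    induction n with
    | zero => rw [nx0, ny0]
    | succ n ih =>
      have h1 := nyS (H x) n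
      rw [ih] at h1
      exact huV n _ _ h1 _ (nxS x n) (H x) (nyV (H x) (n + 1)) (hH x (n + 1))
  have eqy : ∀ y n, nx (K y) n = ny y n := by
    intro x n
    induction n with
    | zero => rw [nx0, ny0]
    | succ n ih =>
      have h1 := nxS (K x) n
      rw [ih] at h1
      exact huU n _ _ h1 _ (nyS x n) (K x) (nxU (K x) (n + 1)) (hK x (n + 1))
  have KH : ∀ x, K (H x) = x := by
    intro x
    funext i
    have h1 := hK (H x) (i + 2)
    rw [eqx] at h1
    exact haU (i + 1) _ _ (nxS x (i + 1)) _ h1 _ (nxU x (i + 2)) i (Nat.lt_succ_self i)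
  have HK : ∀ y, H (K y) = y := by
    intro x
    funext i
    have h1 := hH (K x) (i + 2)
    rw [eqy] at h1
    exact haV (i + 1) _ _ (nyS x (i + 1)) _ h1 _ (nyV x (i + 2)) i (Nat.lt_succ_self i)
  have hloc : ∀ x n, ∀ x' ∈ U (nx x n), ∀ m ≤ n, nx x' m = nx x m := by
    intro x n x' hx' m
    have hx'm : ∀ k ≤ n, x' ∈ U (nx x k) := by
      have : ∀ d k, k + d = n → x' ∈ U (nx x k) := by
        intro d
        induction d with
        | zero => intro k hk; rw [show k = n by omega]; exact hx'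
        | succ d ih => intro k hk; exact (hsub k _ _ (nxS x k)).1 (ih (k + 1) (by omega))
      exact fun k hk => this (n - k) k (by omega)
    induction m with
    | zero => intro _; rw [nx0, nx0]
    | succ m ih =>
      intro hm
      have h1 := nxS x' m
      rw [ih (by omega)] at h1
      exact huU m _ _ h1 _ (nxS x m) x' (nxU x' (m + 1)) (hx'm (m + 1) hm)
  have hcont : Continuous H := by
    rw [continuous_pi_iff]
    intro i
    rw [continuous_iff_continuousAt]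
    intro x
    have hev : (fun x' => H x' i) =ᶠ[nhds x] fun _ => H x i := by
      have hopen : U (nx x (i + 2)) ∈ nhds x := (hUo _).2.mem_nhds (nxU x (i + 2))
      filter_upwards [hopen] with x' hx'
      have h1 := hH x' (i + 2)
      rw [hloc x (i + 2) x' hx' (i + 2) le_rfl] at h1
      exact haV (i + 1) _ _ (nxS x (i + 1)) _ h1 _ (hH x (i + 2)) i (Nat.lt_succ_self i)
    exact (continuousAt_const (y := H x i)).congr hev.symm
  let e : X ≃ X := ⟨H, K, KH, HK⟩
  refine ⟨Continuous.homeoOfEquivCompactToT2 (f := e) hcont, nx, nx0, nxS, nxU, fun x n => ?_⟩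
  exact hH x n

theorem closed_agree {F : Set X} (hF : IsClosed F) {x : X} (z : ℕ → X) (N : ℕ)
    (hz : ∀ n, N ≤ n → z n ∈ F ∧ Agree n (z n) x) : x ∈ F := by
  refine hF.mem_of_tendsto (b := Filter.atTop) (f := z) ?_ ?_
  · rw [tendsto_pi_nhds]
    intro i
    refine tendsto_const_nhds.congr' ?_
    filter_upwards [Filter.eventually_ge_atTop (max N (i + 1))] with n hn
    exact ((hz n (le_trans (le_max_left _ _) hn)).2 i (by
      have := le_trans (le_max_right _ _) hn; omega)).symm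
  · filter_upwards [Filter.eventually_ge_atTop N] with n hn
    exact (hz n hn).1

/-- the kind of a child -/
def Kind {A B C D : Set X} (fill : List Bool → List Bool → Node A B C D) (n : ℕ) (ν c : Node A B C D) : Prop :=
  (c.F = ν.F ∩ c.U ∧ c.G = ν.G ∩ c.V ∧ c.φ = ν.φ ∧ c.ψ = ν.ψ ∧ c.F.Nonempty) ∨
    (∃ s t, n ≤ s.length ∧ n ≤ t.length ∧ c = fill s t ∧ Disjoint c.U ν.F ∧ Disjoint c.V ν.G)

theorem children (hS : Split) {A B C D : Set X} (fill : List Bool → List Bool → Node A B C D)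
    (hfU : ∀ s t, (fill s t).U = cyl s) (hfV : ∀ s t, (fill s t).V = cyl t) (n : ℕ) (ν : Node A B C D) :
    ∃ S : Set (Node A B C D), (∀ c ∈ S, c.U ⊆ ν.U ∧ c.V ⊆ ν.V) ∧
      (∀ x ∈ ν.U, ∃ c ∈ S, x ∈ c.U) ∧ (∀ x ∈ ν.V, ∃ c ∈ S, x ∈ c.V) ∧
      (∀ c ∈ S, ∀ c' ∈ S, ∀ x, x ∈ c.U → x ∈ c'.U → c = c') ∧
      (∀ c ∈ S, ∀ c' ∈ S, ∀ x, x ∈ c.V → x ∈ c'.V → c = c') ∧
      (∀ c ∈ S, ∀ x ∈ c.U, ∀ y ∈ c.U, Agree n x y) ∧
      (∀ c ∈ S, ∀ x ∈ c.V, ∀ y ∈ c.V, Agree n x y) ∧ ∀ c ∈ S, Kind fill n ν c := by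
  classical
  obtain ⟨ι, P, Q, J, s, t, h1, h2, h3, h4, h5, h6, h7, h8, h9, h10, h11, h12, h13, h14, h15, h16, h17, h18,
    h19, h20, h21⟩ := hS ν.U ν.V ν.F ν.G ν.φ ν.ψ ν.oU ν.oV ν.neU ν.neV ν.cF ν.cG ν.FU ν.GV ν.nF ν.nG ν.kφ ν.kψ
      ν.mφ ν.mψ ν.lφ ν.lψ n
  have hψ : ∀ y ∈ ν.G, ∀ i, ν.ψ y ∈ P i ↔ y ∈ Q i := by
    intro y hy i
    have := h20 (ν.ψ y) (ν.mψ y hy) i
    rwa [ν.lψ y hy] at this
  have hGQ : ∀ y ∈ ν.G, ∃ i, y ∈ Q i := by
    intro y hy
    obtain ⟨i, hi⟩ := h21 _ (ν.mψ y hy)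
    exact ⟨i, (hψ y hy i).1 hi⟩
  let ch : ι → Node A B C D := fun i =>
    { U := P i
      V := Q i
      F := ν.F ∩ P i
      G := ν.G ∩ Q i
      φ := ν.φ
      ψ := ν.ψ
      oU := h1 i
      oV := h2 i
      neU := by obtain ⟨x, -, hx⟩ := h3 i; exact ⟨x, hx⟩
      neV := by obtain ⟨x, hxF, hx⟩ := h3 i; exact ⟨ν.φ x, (h20 x hxF i).1 hx⟩
      cF := ν.cF.inter (h1 i).1
      cG := ν.cG.inter (h2 i).1
      FU := inter_subset_right
      GV := inter_subset_right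
      nF := by
        apply subset_empty_iff.1
        rw [← ν.nF]
        exact interior_mono inter_subset_left
      nG := by
        apply subset_empty_iff.1
        rw [← ν.nG]
        exact interior_mono inter_subset_left
      kφ := ν.kφ.mono inter_subset_left
      kψ := ν.kψ.mono inter_subset_left
      mφ := fun x hx => ⟨ν.mφ x hx.1, (h20 x hx.1 i).1 hx.2⟩
      mψ := fun y hy => ⟨ν.mψ y hy.1, (hψ y hy.1 i).2 hy.2⟩
      lφ := fun x hx => ν.lφ x hx.1
      lψ := fun y hy => ν.lψ y hy.1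
      aB := fun x hx => ν.aB x hx.1
      cD := fun x hx => ν.cD x hx.1 }
  have hchU : ∀ i, (ch i).U = P i := fun _ => rfl
  have hchV : ∀ i, (ch i).V = Q i := fun _ => rfl
  have hag : ∀ (l : List Bool), n ≤ l.length → ∀ x ∈ cyl l, ∀ y ∈ cyl l, Agree n x y := by
    intro l hl x hx y hy i hi
    rw [hx i (by omega), hy i (by omega)]
  refine ⟨range ch ∪ range (fun j => fill (s j) (t j)), ?_, ?_, ?_, ?_, ?_, ?_, ?_, ?_⟩
  · rintro c (⟨i, rfl⟩ | ⟨j, rfl⟩)
    · exact ⟨h8 i, h9 i⟩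
    · refine ⟨?_, ?_⟩
      · show (fill (s j) (t j)).U ⊆ _
        rw [hfU]; exact h10 j
      · show (fill (s j) (t j)).V ⊆ _
        rw [hfV]; exact h11 j
  · intro x hx
    rcases h12 x hx with ⟨i, hi⟩ | ⟨j, hj⟩
    · exact ⟨ch i, Or.inl ⟨i, rfl⟩, hi⟩
    · exact ⟨fill (s j) (t j), Or.inr ⟨j, rfl⟩, by rw [hfU]; exact hj⟩
  · intro x hx
    rcases h13 x hx with ⟨i, hi⟩ | ⟨j, hj⟩
    · exact ⟨ch i, Or.inl ⟨i, rfl⟩, hi⟩
    · exact ⟨fill (s j) (t j), Or.inr ⟨j, rfl⟩, by rw [hfV]; exact hj⟩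
  · rintro c (⟨i, rfl⟩ | ⟨j, rfl⟩) c' (⟨i', rfl⟩ | ⟨j', rfl⟩) x hx hx'
    · by_cases h : i = i'
      · rw [h]
      · exact absurd hx' (disjoint_left.1 (h14 i i' h) hx)
    · simp only [hfU] at hx'
      exact absurd hx' (disjoint_left.1 (h18 i j') hx)
    · simp only [hfU] at hx
      exact absurd hx (disjoint_left.1 (h18 i' j) hx')
    · simp only [hfU] at hx hx'
      by_cases h : j = j'
      · rw [h]
      · exact absurd hx' (disjoint_left.1 (h16 j j' h) hx)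
  · rintro c (⟨i, rfl⟩ | ⟨j, rfl⟩) c' (⟨i', rfl⟩ | ⟨j', rfl⟩) x hx hx'
    · by_cases h : i = i'
      · rw [h]
      · exact absurd hx' (disjoint_left.1 (h15 i i' h) hx)
    · simp only [hfV] at hx'
      exact absurd hx' (disjoint_left.1 (h19 i j') hx)
    · simp only [hfV] at hx
      exact absurd hx (disjoint_left.1 (h19 i' j) hx')
    · simp only [hfV] at hx hx'
      by_cases h : j = j'
      · rw [h]
      · exact absurd hx' (disjoint_left.1 (h17 j j' h) hx)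
  · rintro c (⟨i, rfl⟩ | ⟨j, rfl⟩)
    · exact h4 i
    · simp only [hfU]
      exact hag _ (h6 j)
  · rintro c (⟨i, rfl⟩ | ⟨j, rfl⟩)
    · exact h5 i
    · simp only [hfV]
      exact hag _ (h7 j)
  · rintro c (⟨i, rfl⟩ | ⟨j, rfl⟩)
    · left
      obtain ⟨x, hxF, hx⟩ := h3 i
      exact ⟨rfl, rfl, rfl, rfl, ⟨x, hxF, hx⟩⟩
    · right
      refine ⟨s j, t j, h6 j, h7 j, rfl, ?_, ?_⟩
      · simp only [hfU]
        rw [disjoint_left]
        intro x hx hxF
        obtain ⟨i, hi⟩ := h21 x hxF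
        exact disjoint_left.1 (h18 i j) hi hx
      · simp only [hfV]
        rw [disjoint_left]
        intro y hy hyG
        obtain ⟨i, hi⟩ := hGQ y hyG
        exact disjoint_left.1 (h19 i j) hi hy

theorem backForth : BackForth := by
  classical
  intro hS A B C D _ _ hFill
  obtain ⟨fill, hfU, hfV, hfA, hfB⟩ := hFill
  choose S hS1 hS2 hS3 hS4 hS5 hS6 hS7 hS8 using children hS fill hfU hfV
  have hcyl : cyl [] = univ := by
    ext x
    simp [cyl]
  obtain ⟨h, nx, nx0, nxS, nxU, nxV⟩ := tree (fun ν : Node A B C D => ν.U) (fun ν => ν.V) S (fill [] [])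
    hS1 hS2 hS3 hS4 hS5 hS6 hS7 (fun ν => ν.oU) (fun ν => ν.oV) (fun ν => ν.neU) (fun ν => ν.neV)
    (by simp only [hfU]; exact hcyl) (by simp only [hfV]; exact hcyl)
  -- uniqueness on both sides
  have eqU : ∀ x x' N, (∀ n, N ≤ n → x' ∈ (nx x n).U) → x' = x := by
    intro x x' N hx'
    funext i
    exact hS6 (max N (i + 1)) _ _ (nxS x (max N (i + 1))) _ (hx' _ (by omega)) _ (nxU x _) i (by omega)
  have eqV : ∀ x y N, (∀ n, N ≤ n → y ∈ (nx x n).V) → y = h x := by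
    intro x y N hy
    funext i
    exact hS7 (max N (i + 1)) _ _ (nxS x (max N (i + 1))) _ (hy _ (by omega)) _ (nxV x _) i (by omega)
  -- captured points
  have capF : ∀ x n, x ∈ (nx x n).F → (x ∈ A ↔ h x ∈ B) ∧ (x ∈ C ↔ h x ∈ D) := by
    intro x n hx
    have hind : ∀ m, n ≤ m → x ∈ (nx x m).F ∧ (nx x m).φ = (nx x n).φ := by
      intro m hm
      induction m, hm using Nat.le_induction with
      | base => exact ⟨hx, rfl⟩
      | succ m hm ih =>
        rcases hS8 m _ _ (nxS x m) with ⟨e1, -, e3, -, -⟩ | ⟨s, t, -, -, -, hd, -⟩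
        · refine ⟨?_, e3.trans ih.2⟩
          rw [e1]; exact ⟨ih.1, nxU x (m + 1)⟩
        · exact absurd ih.1 (disjoint_left.1 hd (nxU x (m + 1)))
    have hφ : (nx x n).φ x = h x := by
      refine eqV x _ n fun m hm => ?_
      obtain ⟨i1, i2⟩ := hind m hm
      rw [← i2]
      exact (nx x m).GV ((nx x m).mφ x i1)
    rw [← hφ]
    exact ⟨(nx x n).aB x hx, (nx x n).cD x hx⟩
  have capG : ∀ x n, h x ∈ (nx x n).G → x ∈ (nx x n).F := by
    intro x n hy
    have hind : ∀ m, n ≤ m → h x ∈ (nx x m).G ∧ (nx x m).ψ = (nx x n).ψ := by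
      intro m hm
      induction m, hm using Nat.le_induction with
      | base => exact ⟨hy, rfl⟩
      | succ m hm ih =>
        rcases hS8 m _ _ (nxS x m) with ⟨-, e2, -, e4, -⟩ | ⟨s, t, -, -, -, -, hd⟩
        · refine ⟨?_, e4.trans ih.2⟩
          rw [e2]; exact ⟨ih.1, nxV x (m + 1)⟩
        · exact absurd ih.1 (disjoint_left.1 hd (nxV x (m + 1)))
    have hψ : (nx x n).ψ (h x) = x := by
      refine eqU x _ n fun m hm => ?_
      obtain ⟨i1, i2⟩ := hind m hm
      rw [← i2]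
      exact (nx x m).FU ((nx x m).mψ _ i1)
    have := (nx x n).mψ _ hy
    rwa [hψ] at this
  -- every point is captured
  have allF : ∀ x ∈ A ∪ C, ∃ n, x ∈ (nx x n).F := by
    intro x hx
    by_contra hne
    push Not at hne
    obtain ⟨N, hN⟩ := hfA x hx
    have hP : ∀ n, N ≤ n → (nx x (n + 1)).F = (nx x n).F ∩ (nx x (n + 1)).U ∧ (nx x (n + 1)).F.Nonempty := by
      intro n hn
      rcases hS8 n _ _ (nxS x n) with ⟨e1, -, -, -, e5⟩ | ⟨s, t, hs, ht, hc, -, -⟩
      · exact ⟨e1, e5⟩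
      · exfalso
        apply hne (n + 1)
        rw [hc]
        refine hN s t (by omega) (by omega) ?_
        have := nxU x (n + 1)
        rwa [hc, hfU] at this
    have hsubF : ∀ n, N ≤ n → (nx x n).F ⊆ (nx x N).F := by
      intro n hn
      induction n, hn using Nat.le_induction with
      | base => exact subset_rfl
      | succ n hn ih =>
        rw [(hP n hn).1]
        exact inter_subset_left.trans ih
    have hz : ∀ n, ∃ z, N ≤ n → z ∈ (nx x (n + 1)).F := by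
      intro n
      by_cases hn : N ≤ n
      · obtain ⟨z, hz⟩ := (hP n hn).2
        exact ⟨z, fun _ => hz⟩
      · exact ⟨x, fun h => absurd h hn⟩
    choose z hz using hz
    apply hne N
    refine closed_agree (nx x N).cF z N fun n hn => ⟨hsubF (n + 1) (by omega) (hz n hn), ?_⟩
    exact hS6 n _ _ (nxS x n) _ ((nx x (n + 1)).FU (hz n hn)) _ (nxU x (n + 1))
  have allG : ∀ x, h x ∈ B ∪ D → ∃ n, h x ∈ (nx x n).G := by
    intro x hx
    by_contra hne
    push Not at hne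
    obtain ⟨N, hN⟩ := hfB _ hx
    have hP : ∀ n, N ≤ n → (nx x (n + 1)).G = (nx x n).G ∩ (nx x (n + 1)).V ∧ (nx x (n + 1)).G.Nonempty := by
      intro n hn
      rcases hS8 n _ _ (nxS x n) with ⟨-, e2, -, -, ⟨w, hw⟩⟩ | ⟨s, t, hs, ht, hc, -, -⟩
      · exact ⟨e2, ⟨_, (nx x (n + 1)).mφ w hw⟩⟩
      · exfalso
        apply hne (n + 1)
        rw [hc]
        refine hN s t (by omega) (by omega) ?_
        have := nxV x (n + 1)
        rwa [hc, hfV] at this
    have hsubG : ∀ n, N ≤ n → (nx x n).G ⊆ (nx x N).G := by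
      intro n hn
      induction n, hn using Nat.le_induction with
      | base => exact subset_rfl
      | succ n hn ih =>
        rw [(hP n hn).1]
        exact inter_subset_left.trans ih
    have hz : ∀ n, ∃ z, N ≤ n → z ∈ (nx x (n + 1)).G := by
      intro n
      by_cases hn : N ≤ n
      · obtain ⟨z, hz⟩ := (hP n hn).2
        exact ⟨z, fun _ => hz⟩
      · exact ⟨x, fun h => absurd h hn⟩
    choose z hz using hz
    apply hne N
    refine closed_agree (nx x N).cG z N fun n hn => ⟨hsubG (n + 1) (by omega) (hz n hn), ?_⟩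
    exact hS7 n _ _ (nxS x n) _ ((nx x (n + 1)).GV (hz n hn)) _ (nxV x (n + 1))
  refine ⟨h, ?_, ?_⟩
  · ext y
    constructor
    · rintro ⟨x, hx, rfl⟩
      obtain ⟨n, hn⟩ := allF x (Or.inl hx)
      exact (capF x n hn).1.1 hx
    · intro hy
      have hxy : h (h.symm y) = y := h.apply_symm_apply y
      refine ⟨h.symm y, ?_, hxy⟩
      obtain ⟨n, hn⟩ := allG (h.symm y) (by rw [hxy]; exact Or.inl hy)
      refine (capF _ n (capG _ n hn)).1.2 ?_
      rw [hxy]; exact hy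
  · ext y
    constructor
    · rintro ⟨x, hx, rfl⟩
      obtain ⟨n, hn⟩ := allF x (Or.inr hx)
      exact (capF x n hn).2.1 hx
    · intro hy
      have hxy : h (h.symm y) = y := h.apply_symm_apply y
      refine ⟨h.symm y, ?_, hxy⟩
      obtain ⟨n, hn⟩ := allG (h.symm y) (by rw [hxy]; exact Or.inr hy)
      refine (capF _ n (capG _ n hn)).2.2 ?_
      rw [hxy]; exact hy

end Pool.Agent.HP981.Ba
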